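import Pool.Agent.H82.BO.Targets
import Pool.Agent.H91.FLC.BIN

/-!
# Row VOL of the board bopt_modules: the volume of a ball
-/

set_option autoImplicit false

namespace Pool.Agent.H4.BOP

open Finset Pool.Agent.H82.BO

private lemma card_ball (n : ℕ) (h : ℝ) (y : Fin n → Bool) :
    (Nat.card {y' : Fin n → Bool // (hammingDist y y' : ℝ) < h} : ℝ) ≤
      ∑ j ∈ range (⌊h⌋₊ + 1), (n.choose j : ℝ) := by
  classical
  rw [Nat.card_eq_fintype_card, Fintype.card_subtype]
  have h1 : ((univ : Finset (Fin n → Bool)).filter fun y' =>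
      (hammingDist y y' : ℝ) < h).card ≤
      ((range (⌊h⌋₊ + 1)).biUnion fun j => powersetCard j (univ : Finset (Fin n))).card := by
    apply card_le_card_of_injOn (fun y' : Fin n → Bool => univ.filter fun i => y i ≠ y' i)
    · intro y' hy'
      have h2 : (hammingDist y y' : ℝ) < h := (mem_filter.1 hy').2
      refine mem_coe.2 (mem_biUnion.2 ⟨hammingDist y y', ?_, ?_⟩)
      · exact mem_range.2 (Nat.lt_succ_of_le (Nat.le_floor h2.le))
      · exact mem_powersetCard.2 ⟨subset_univ _, rfl⟩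
    · intro a _ b _ hab
      funext i
      have h2 := Finset.ext_iff.1 hab i
      simp only [mem_filter, mem_univ, true_and] at h2
      revert h2
      cases y i <;> cases a i <;> cases b i <;> simp
  have h2 : ((range (⌊h⌋₊ + 1)).biUnion fun j =>
      powersetCard j (univ : Finset (Fin n))).card ≤ ∑ j ∈ range (⌊h⌋₊ + 1), n.choose j := by
    refine card_biUnion_le.trans (le_of_eq (sum_congr rfl fun j _ => ?_))
    rw [card_powersetCard, card_univ, Fintype.card_fin]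
  calc (((univ : Finset (Fin n → Bool)).filter fun y' =>
      (hammingDist y y' : ℝ) < h).card : ℝ)
      ≤ ((∑ j ∈ range (⌊h⌋₊ + 1), n.choose j : ℕ) : ℝ) := by exact_mod_cast h1.trans h2
    _ = ∑ j ∈ range (⌊h⌋₊ + 1), (n.choose j : ℝ) := by push_cast; rfl

private lemma exponent {ε : ℝ} (h0 : 0 < ε) (h1 : ε ≤ 1 / 4) :
    ε ^ 2 / 4 * (1 + Real.log (1 / (ε ^ 2 / 4))) ≤ ε * Real.log 2 := by
  have e1 : Real.log (1 / (ε ^ 2 / 4)) = 2 * Real.log 2 + 2 * Real.log ε⁻¹ := by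
    have e2 : 1 / (ε ^ 2 / 4) = (2 * ε⁻¹) ^ 2 := by
      field_simp
      norm_num
    rw [e2, Real.log_pow, Real.log_mul (by norm_num) (inv_ne_zero h0.ne')]
    push_cast
    ring
  have e3 : Real.log ε⁻¹ ≤ ε⁻¹ - 1 := Real.log_le_sub_one_of_pos (inv_pos.2 h0)
  have l1 := Real.log_two_gt_d9
  have l2 := Real.log_two_lt_d9
  rw [e1]
  have e4 : ε ^ 2 / 4 * (1 + (2 * Real.log 2 + 2 * Real.log ε⁻¹)) ≤
      ε ^ 2 / 4 * (1 + (2 * Real.log 2 + 2 * (ε⁻¹ - 1))) := by
    apply mul_le_mul_of_nonneg_left _ (by positivity)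
    linarith
  have e5 : ε ^ 2 / 4 * (1 + (2 * Real.log 2 + 2 * (ε⁻¹ - 1))) =
      ε * (ε * (2 * Real.log 2 - 1) / 4 + 1 / 2) := by
    field_simp
    ring
  rw [e5] at e4
  refine e4.trans (mul_le_mul_of_nonneg_left ?_ h0.le)
  have e6 : ε * (2 * Real.log 2 - 1) ≤ 1 / 4 * (2 * Real.log 2 - 1) :=
    mul_le_mul_of_nonneg_right h1 (by linarith)
  linarith

theorem pf_VOL : T_VOL := by
  intro n ε y h0 h1
  have hη : (0 : ℝ) < ε ^ 2 / 4 := by positivity
  have hη1 : ε ^ 2 / 4 ≤ 1 := by nlinarith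
  have hn : (0 : ℝ) ≤ n := Nat.cast_nonneg n
  have hη0 : (0 : ℝ) ≤ ε ^ 2 / 4 * n := by positivity
  set η : ℝ := ε ^ 2 / 4 with hηd
  have h2 := card_ball n (η * n) y
  have h3 := Pool.Agent.H91.FLC.pf_BIN η n ⌊η * n⌋₊ hη hη1
  have hl : 0 ≤ Real.log (1 / η) := Real.log_nonneg (by
    rw [le_div_iff₀ hη]
    linarith)
  have h4 : (1 / η) ^ ⌊η * n⌋₊ ≤ Real.exp (η * n * Real.log (1 / η)) := by
    have e1 : (1 / η) ^ ⌊η * n⌋₊ = Real.exp (⌊η * n⌋₊ * Real.log (1 / η)) := by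
      rw [Real.exp_nat_mul, Real.exp_log (by positivity)]
    rw [e1]
    apply Real.exp_le_exp.2
    exact mul_le_mul_of_nonneg_right (Nat.floor_le hη0) hl
  refine h2.trans (h3.trans ?_)
  calc (1 / η) ^ ⌊η * n⌋₊ * Real.exp (η * n)
      ≤ Real.exp (η * n * Real.log (1 / η)) * Real.exp (η * n) :=
        mul_le_mul_of_nonneg_right h4 (Real.exp_pos _).le
    _ = Real.exp ((η * (1 + Real.log (1 / η))) * n) := by
        rw [← Real.exp_add]
        congr 1
        ring
    _ ≤ Real.exp (ε * Real.log 2 * n) := by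
        apply Real.exp_le_exp.2
        exact mul_le_mul_of_nonneg_right (exponent h0 h1) hn
    _ = 2 ^ (ε * n) := by
        rw [Real.rpow_def_of_pos (by norm_num)]
        congr 1
        ring

end Pool.Agent.H4.BOP
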